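import Pool.Agent.Helper16.SD.GoalsN
import Pool.Agent.Helper32.SD.R_ASM

/-!
# Project SD (MP_fc6b1e_nt), packet N_ASM: assembly of `S_RANKN`
-/

set_option autoImplicit false

namespace Pool.Agent.Helper15.SD.N_ASM

open NumberField Module IsDedekindDomain TensorProduct
open Pool.Agent.Helper51.SigLeo Pool.Agent.Helper51.RP Pool.Agent.Helper51.REC
open Pool.Agent.Helper17.SL (archLog Phi S_SUB S_LA S_SA S_SB S_SC S_TRANS S_GA1 S_GA3 S_GA7)
open Pool.Agent.Helper38.FD (Chr)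
open Pool.Agent.Helper17.TH (ug)
open Pool.Agent.Helper16.SD

open Pool.Agent.Helper32.SD.R_ASM (lift_emb final_arith)

/-- **N_ASM**. -/
theorem t : N_ASM := by
  classical
  intro hTRD hDIMC hCCJ hLFT hMVD hNDG hMAT hKD
  intro p _ F₀ K _ _ _ _ _ _ _ hdeg ιinf ιp Lg F _ _ χ hχ hχ1
  have hfin : FiniteDimensional K F := Module.Finite.of_restrictScalars_finite ℚ K F
  have hfG : Finite (F ≃ₐ[K] F) := inferInstance
  letI : Fintype (F ≃ₐ[K] F) := Fintype.ofFinite _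
  have hK2 : finrank ℚ K = 2 * finrank ℚ F₀ := by
    rw [← finrank_mul_finrank ℚ F₀ K, hdeg, mul_comm]
  have hsurj : Function.Surjective
      (AlgEquiv.restrictNormalHom (F := K) (K₁ := AlgebraicClosure K) F) :=
    AlgEquiv.restrictNormalHom_surjective _
  obtain ⟨χF, hχF⟩ : ∃ χF : (F ≃ₐ[K] F) →* ℂ_[p]ˣ,
      ∀ g, χF (AlgEquiv.restrictNormalHom F g) = χ g := by
    refine ⟨MonoidHom.liftOfSurjective _ hsurj ⟨χ, ?_⟩, fun g => ?_⟩
    · intro g hg
      rw [MonoidHom.mem_ker] at hg ⊢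
      apply hχ
      intro x hx
      have h1 := AlgEquiv.restrictNormal_commutes g F ⟨x, hx⟩
      have h2 : g.restrictNormal F = 1 := hg
      rw [h2] at h1
      exact h1.symm
    · exact MonoidHom.liftOfRightInverse_comp_apply _ _ _ ⟨χ, _⟩ g
  obtain ⟨E, hE, χ', hχ'⟩ := Pool.Agent.Helper17.SL.PkGA1.thm (AlgebraicClosure K) ℂ_[p] ιp
    (F ≃ₐ[K] F) χF
  obtain ⟨lam, hlam⟩ : ∃ lam : E →+* AlgebraicClosure K, ∀ x, lam x = (x : AlgebraicClosure K) :=
    ⟨algebraMap E (AlgebraicClosure K), fun _ => rfl⟩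
  have hj : ∀ g, (ιp.comp lam) (χ' (AlgEquiv.restrictNormalHom F g) : Eˣ) =
      ((χ g : ℂ_[p]ˣ) : ℂ_[p]) := by
    intro g
    rw [RingHom.comp_apply, hlam, hχ', hχF]
  have hχ'1 : χ' ≠ 1 := by
    intro h
    apply hχ1
    apply MonoidHom.ext
    intro g
    apply Units.ext
    rw [← hj g, h]
    simp
  have hpart : chiPart F χ = gPart ((Units.map ((ιp.comp lam : E →+* ℂ_[p]) : E →* ℂ_[p])).comp
      χ') := by
    ext v
    constructor
    · intro hv g
      obtain ⟨g, rfl⟩ := hsurj g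
      have h1 := hv g
      rw [← hj g] at h1
      exact h1
    · intro hv g
      have h1 := hv (AlgEquiv.restrictNormalHom F g)
      show extEnd (ug F g) v = _
      rw [← hj g]
      exact h1
  have hdim : finrank ℂ_[p] (chiPart F χ) = finrank ℚ F₀ := by
    rw [hpart, hTRD K F E ℂ_[p] ℂ (ιp.comp lam) (ιinf.comp lam) χ']
    apply hDIMC K F _ _ _ hK2
    intro h
    apply hχ'1
    apply MonoidHom.ext
    intro g
    have h1 := DFunLike.congr_fun h g
    have h2 : (ιinf.comp lam) ((χ' g : Eˣ) : E) = 1 := congrArg Units.val h1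
    apply Units.ext
    apply (ιinf.comp lam).injective
    rw [h2]
    simp
  refine ⟨hdim, ?_⟩
  intro hM T
  obtain ⟨c, hc1, hc2⟩ := hCCJ K ιinf
  obtain ⟨s, h, hs1, hs2, hs3⟩ := hLFT K F
  obtain ⟨hcc, hmv⟩ := hMVD F₀ K hdeg p ιinf c hc1 hc2 F χ hM E (ιp.comp lam) χ' hj s h
    hs1 hs2 hs3
  obtain ⟨u, hu⟩ := hNDG F₀ K hdeg ιinf c hc1 hc2 F E (ιinf.comp lam) χ' hχ'1 s h hs1 hs2 hs3
  have hex : ∀ q : Fin T.card, ∃ σ : K →+* AlgebraicClosure K,
      ιp.comp σ = (T.equivFin.symm q : K →+* ℂ_[p]) := fun q => lift_emb ιp _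
  choose σ hσ using hex
  have hσi : Function.Injective σ := by
    intro q q' hq
    have h1 : (T.equivFin.symm q : K →+* ℂ_[p]) = T.equivFin.symm q' := by
      rw [← hσ q, ← hσ q', hq]
    exact T.equivFin.symm.injective (Subtype.ext h1)
  have h1 := hMAT F₀ K hdeg p ιinf ιp Lg c hc1 hcc F E lam χ' s h hs1 hs2 hs3 hmv u hu
    T.card σ hσi
  have h2 := hKD K p ιp Lg F E lam χ' s hs1 (finrank ℚ F₀) u T.card σ
    (logKer Lg F (T : Set (K →+* ℂ_[p]))) (by
      rintro v hv τ ⟨q, hq⟩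
      apply hv τ
      show τ.comp (algebraMap K F) ∈ (T : Set (K →+* ℂ_[p]))
      rw [hq, hσ q]
      exact (T.equivFin.symm q).2)
  rw [← hpart] at h2
  exact final_arith _ _ _ _ _ h1 h2 hdim

end Pool.Agent.Helper15.SD.N_ASM
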