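import Pool.Agent.Helper16.SD.GoalsX
import Pool.Agent.Helper57.TH.TEN1

/-!
# Project SD (MP_fc6b1e_nt), packet X_B: the exponent
-/

set_option autoImplicit false

namespace Pool.Agent.Helper15.SD.X_B

open Module TensorProduct Polynomial
open Pool.Agent.Helper51.SigLeo
open Pool.Agent.Helper17.TH (exO tm Wsub Acts exO_comp exO_id exO_tmul tm_exO tm_smul extHom_comp)
open Pool.Agent.Helper16.SD (TwAct zp)

section

variable {p : ℕ} [Fact p.Prime] {A : Type} [AddCommGroup A] {G : Type} [Group G]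
variable {act : G → A →+ A} {χ η : G →* ℂ_[p]ˣ} {gt : G}
variable {O : Type} [CommRing O]

/-- Congruences for the powers of `gt`, for a multiplicative function `d`. -/
theorem powO (H : Acts act χ η gt) (d : G → O) (hd1 : d 1 = 1)
    (hd : ∀ g h, d (g * h) = d g * d h) (q : ℕ) (z y : O ⊗[ℤ] A)
    (h : exO O (act gt) z - d gt • z = q • y) (i : ℕ) :
    ∃ y', exO O (act (gt ^ i)) z - d (gt ^ i) • z = q • y' := by
  have hone : act 1 = AddMonoidHom.id A := H.fix 1 (map_one _) (map_one _)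
  induction i with
  | zero =>
    refine ⟨0, ?_⟩
    rw [pow_zero, hd1, hone, exO_id, one_smul, sub_self, smul_zero]
  | succ i ih =>
    obtain ⟨y', hy'⟩ := ih
    refine ⟨exO O (act gt) y' + d (gt ^ i) • y, ?_⟩
    have e1 : exO O (act (gt ^ i)) z = d (gt ^ i) • z + q • y' := by
      rw [← hy']; abel
    have e2 : exO O (act gt) z = d gt • z + q • y := by
      rw [← h]; abel
    rw [pow_succ', H.mul, exO_comp, e1, map_add, map_smul, e2, hd, map_nsmul,
      smul_add, smul_smul, mul_comm (d (gt ^ i)), smul_add, smul_comm (d (gt ^ i)) q y]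
    abel

end

theorem t : Pool.Agent.Helper16.SD.X_B := by
  intro p _ A _ _ G _ act χ η gt ℓs O _ _ _ j c u m H0 B C htor hexp yh vh hy hT
  have H := H0.acts
  have hj := H0.inj
  have hc := H0.hc
  have hℓ := H0.stab
  have h1 := Pool.Agent.Helper57.TH.s_ten1
  obtain ⟨ct, hct⟩ : ∃ ct : G → O, ct = fun g => c g * algebraMap ℤ_[p] O (u g : ℤ_[p]ˣ) :=
    ⟨_, rfl⟩
  have hct' : ∀ g, c g * algebraMap ℤ_[p] O (u g : ℤ_[p]ˣ) = ct g := fun g => by rw [hct]
  simp only [hct'] at htor hexp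
  have hjct : ∀ g, j (ct g) = ((χ g : ℂ_[p]ˣ) : ℂ_[p]) * zp p (u g : ℤ_[p]ˣ) := by
    intro g
    rw [hct]
    show j (c g * algebraMap ℤ_[p] O (u g : ℤ_[p]ˣ)) = _
    rw [map_mul, hc, H0.alg]
    rfl
  have hcmul : ∀ g h, c (g * h) = c g * c h := Pool.Agent.Helper17.TH.c_mul j c hj hc
  have hctmul : ∀ g h, ct (g * h) = ct g * ct h := by
    intro g h
    rw [hct]
    show c (g * h) * algebraMap ℤ_[p] O (u (g * h) : ℤ_[p]ˣ) =
      (c g * algebraMap ℤ_[p] O (u g : ℤ_[p]ˣ)) * (c h * algebraMap ℤ_[p] O (u h : ℤ_[p]ˣ))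
    rw [hcmul, map_mul, Units.val_mul, map_mul]
    ring
  have hct1 : ct 1 = 1 := by
    rw [hct]
    show c 1 * algebraMap ℤ_[p] O (u 1 : ℤ_[p]ˣ) = 1
    have h2 : c 1 = 1 := by
      apply hj
      rw [hc, map_one, map_one, Units.val_one]
    rw [h2, map_one, Units.val_one, map_one, one_mul]
  obtain ⟨k, hk⟩ : ∃ k, k = m + 1 := ⟨_, rfl⟩
  rw [← hk] at hexp hT ⊢
  obtain ⟨a, ha, e, he⟩ := htor
  -- the operator `U = gt - a` kills the torsion
  have hU : ∀ z : O ⊗[ℤ] A, tm j A z = 0 → exO O (act gt) z = (a : O) • z := by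
    intro z hz
    refine AddSubgroup.closure_induction (p := fun z _ ↦ exO O (act gt) z = (a : O) • z) ?_ ?_ ?_ ?_
      (h1 p O j hj A z hz)
    · rintro x ⟨o, x, n, hx, rfl⟩
      rw [exO_tmul, ha x n hx, Nat.cast_smul_eq_nsmul, TensorProduct.tmul_smul]
    · rw [map_zero, smul_zero]
    · intro x y _ _ hx hy
      rw [map_add, hx, hy, smul_add]
    · intro x _ hx
      rw [map_neg, hx, smul_neg]
  set zh : O ⊗[ℤ] A := exO O (act gt) yh - (a : O) • yh with hzh
  have htm : ∀ (n : ℕ) (z : O ⊗[ℤ] A), tm j A (n • z) = n • tm j A z := fun n z ↦ map_nsmul _ _ _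
  have hcomm : ∀ (g : G) (x : O ⊗[ℤ] A),
      exO O (act g) (exO O (act gt) x) = exO O (act gt) (exO O (act g) x) := by
    intro g x
    rw [← exO_comp, ← exO_comp, ← H.mul, ← H.mul, H.comm]
  have e1 : exO O (act gt) zh - ct gt • zh =
      p ^ k • (exO O (act gt) vh - (a : O) • vh) := by
    have h2 := hU (exO O (act gt) yh - ct gt • yh - p ^ k • vh) (by
      rw [map_sub, map_sub, tm_exO, tm_smul, hjct, hT, htm, sub_self])
    rw [map_sub, map_sub, map_smul, map_nsmul] at h2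
    have h3 : exO O (act gt) (exO O (act gt) yh) = ct gt • exO O (act gt) yh +
        p ^ k • exO O (act gt) vh + (a : O) • (exO O (act gt) yh - ct gt • yh - p ^ k • vh) := by
      rw [← h2]; abel
    rw [hzh, map_sub, map_smul, h3]
    simp only [smul_sub, smul_smul, mul_comm (a : O) (ct gt)]
    rw [smul_comm (p ^ k) (a : O) vh]
    abel
  have e2 : ∀ h, η h = 1 → exO O (act h) zh = c h • zh := by
    intro h hh
    have h2 := hU (exO O (act h) yh - c h • yh) (by
      rw [map_sub, tm_exO, tm_smul, hc, hy.2 h hh, sub_self])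
    rw [map_sub, map_smul] at h2
    have h3 : exO O (act gt) (exO O (act h) yh) = c h • exO O (act gt) yh +
      (a : O) • (exO O (act h) yh - c h • yh) := by
      rw [← h2]; abel
    rw [hzh, map_sub, map_smul, hcomm, h3]
    simp only [smul_sub, smul_smul, mul_comm (a : O) (c h)]
    abel
  obtain ⟨y1, hy1⟩ := hexp zh (fun ℓ hl ↦ by
      rw [hzh, map_sub, tm_exO, tm_smul, map_sub, map_smul, extHom_comp, hy.1 ℓ hl,
        hy.1 _ (hℓ ℓ hl gt), smul_zero, sub_self]) (fun g ↦ by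
      obtain ⟨i, hi⟩ := H.gen g
      obtain ⟨h, hh0⟩ : ∃ h, h = (gt ^ i)⁻¹ * g := ⟨_, rfl⟩
      have hg : g = gt ^ i * h := by rw [hh0, mul_inv_cancel_left]
      have hh : η h = 1 := by rw [hh0, map_mul, map_inv, map_pow, hi, inv_mul_cancel]
      obtain ⟨y', hy'⟩ := powO H ct hct1 hctmul _ zh _ e1 i
      obtain ⟨r, hr⟩ := H0.u_eta h hh
      rw [← hk] at hr
      have hr' : algebraMap ℤ_[p] O (u h : ℤ_[p]ˣ) =
          1 + (p : O) ^ k * algebraMap ℤ_[p] O r := by
        have h6 : ((u h : ℤ_[p]ˣ) : ℤ_[p]) = 1 + (p : ℤ_[p]) ^ k * r := by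
          rw [← hr]; ring
        rw [h6, map_add, map_one, map_mul, map_pow, map_natCast]
      have hch : ct h = c h + (p : O) ^ k * (c h * algebraMap ℤ_[p] O r) := by
        rw [← hct' h, hr']
        ring
      have h7 : exO O (act (gt ^ i)) zh = ct (gt ^ i) • zh + p ^ k • y' := by
        rw [← hy']; abel
      have h8 : ∀ x : O ⊗[ℤ] A, ((p : O) ^ k) • x = p ^ k • x := by
        intro x
        rw [← Nat.cast_pow, Nat.cast_smul_eq_nsmul]
      refine ⟨c h • y' - (ct (gt ^ i) * (c h * algebraMap ℤ_[p] O r)) • zh, ?_⟩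
      have h9 : ct g = ct (gt ^ i) * c h +
          (p : O) ^ k * (ct (gt ^ i) * (c h * algebraMap ℤ_[p] O r)) := by
        rw [hg, hctmul, hch]
        ring
      have h10 : act g = (act (gt ^ i)).comp (act h) := by rw [← H.mul, ← hg]
      rw [h10, exO_comp, e2 h hh, map_smul, h7, h9, smul_add, smul_smul, add_smul,
        mul_comm (c h) (ct (gt ^ i)), mul_smul ((p : O) ^ k), h8,
        smul_sub (p ^ k) (c h • y'), smul_comm (c h) (p ^ k) y']
      abel)
  -- conclusion
  have e3 : ((p : O) ^ C) • yh = e • zh - e • (exO O (act gt) yh - ct gt • yh) := by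
    rw [he, hzh, ← smul_sub]
    rw [mul_comm, mul_smul]
    congr 1
    rw [sub_smul]
    abel
  refine ⟨e • y1 - e • (p ^ B • vh), ?_⟩
  have e4 : tm j A (e • (exO O (act gt) yh - ct gt • yh)) = tm j A (e • (p ^ k • vh)) := by
    rw [tm_smul, tm_smul, map_sub, tm_exO, tm_smul, hjct, hT, htm]
  have e5 : p ^ (B + C) • tm j A yh = tm j A (p ^ B • (((p : O) ^ C) • yh)) := by
    rw [htm, tm_smul, map_pow, map_natCast, pow_add, mul_smul]
    congr 1
    rw [← Nat.cast_pow, Nat.cast_smul_eq_nsmul]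
  rw [e5, e3, smul_sub, map_sub, htm, htm, e4, ← htm, ← htm, ← htm, smul_comm (p ^ B) e zh, hy1,
    smul_sub, smul_comm (p ^ k) e y1, map_sub, smul_comm (p ^ B) e (p ^ k • vh),
    smul_comm (p ^ B) (p ^ k) vh, smul_comm (p ^ k) e (p ^ B • vh)]

end Pool.Agent.Helper15.SD.X_B
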